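import Pool.Agent.Lib.MP_1e1a64_an.Area

open Set Filter Topology MeasureTheory
open Pool.Agent.Lib.MP_1e1a64_an

namespace Pool.Agent.Results.MP_1e1a64_an.Equidist

/-- On a compact connected translation surface, a set `S` of saddle connections with
`log N_S(R) / log R ≥ a > 1` for all large `R` (in particular if the ratio tends to `2`)
equidistributes with respect to the normalised flat area. -/
theorem result {X : Type*} [TopologicalSpace X] [T2Space X] [CompactSpace X] [ConnectedSpace X]
    [MeasurableSpace X] [BorelSpace X] (T : TranslationSurface X) (S : Set (SaddleConnection T))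
    (hS : ∃ a : ℝ, 1 < a ∧ ∀ᶠ R : ℝ in atTop, a ≤ Real.log (countUpTo S R) / Real.log R)
    (f : C(X, ℝ)) :
    Tendsto (fun R : ℝ => ∫ x, f x ∂avgMeasure S R) atTop (𝓝 (∫ x, f x ∂T.normArea)) := by
  obtain ⟨a, ha, h⟩ := hS
  refine equidist T.isNormalisedArea ha ?_ f.continuous
  filter_upwards [h, eventually_gt_atTop 1] with R h1 hR
  have hl := Real.log_pos hR
  rw [le_div_iff₀ hl] at h1
  rcases Nat.eq_zero_or_pos (countUpTo S R) with h0 | h0
  · rw [h0] at h1
    simp at h1
    nlinarith
  · rw [Real.rpow_def_of_pos (by linarith), mul_comm]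
    exact (Real.le_log_iff_exp_le (by exact_mod_cast h0)).1 h1

end Pool.Agent.Results.MP_1e1a64_an.Equidist
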